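import Pool.Agent.R385.FG.Tr

/-!
# The modulus of `Φ₁` on the line `Re s = dim 𝒴`

`f : 𝒳 → 𝒴` is a smooth projective family over a number field `K` without constant part (`IsLisse`), `F` is
a number field containing `K`, `X` is the generic fibre over the finitely generated field `F(𝒴)`, and
`Φ = Φ₁` is the function of the problem for `X` (`IsPhi`); `dim 𝒴 = m + 1` for the model of `𝒴` over the
ring of integers.  The multisets `β y` are the Frobenius eigenvalues on `H¹` of the fibres over the closed
points `y`.  Nothing is assumed about `Φ` on the line `Re s = dim 𝒴` or to the left of it.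

1. For almost all real `t` the finite sums over the closed points `y` and the `e ≥ 1` with `q_y^e < x`, of
   `e⁻¹ Re (∑_{α ∈ β y} α^e q_y^{-e (dim 𝒴 + it)})`, converge for `x → ∞`; the exponential `Λ(t)` of the limit
   is also the limit of `|Φ(dim 𝒴 + it + ε)|` for `ε → 0+`.
2. For every open set `U` symmetric with respect to the line: `Φ` has a meromorphic (holomorphic)
   continuation to `U` if and only if `Λ²` is almost everywhere the restriction of a meromorphic
   (holomorphic) function on `U`.
3. `Φ` has a meromorphic continuation to a neighbourhood of `dim 𝒴 + it₀`, of order `r` there, if and only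
   if `Λ²` is almost everywhere near `t₀` the restriction of a function meromorphic at `dim 𝒴 + it₀`, of
   order `2r`.
4. In particular this holds for the order of `Φ₁` at `dim 𝒴` of the problem.
-/

set_option autoImplicit false

namespace Pool.Agent.Results.MP_9faec4_nt.ModulusCriterion

open NumberField IsDedekindDomain Filter Topology MeasureTheory
open Pool.Agent.W353.FB (Fibration)
open Pool.Agent.Y707.PH (IsLisse IsPhi IsLocal HasOrder Pts)
open Pool.Agent.R385.FG (ept Symm MerOn HolOn SqMerOn SqHolOn OrdAt SqOrdAt logSum modulus)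

theorem result (K : Type) [Field K] [NumberField K] (f : Fibration K)
    (R : Finset (HeightOneSpectrum (𝓞 K))) (C : ℝ) (hf : IsLisse f R C)
    (F : Type) [Field F] [NumberField F] [Algebra K F] :
    (∃ (Φ : ℂ → ℂ) (β : Pts f R F → Multiset ℂ), IsPhi f R F Φ ∧ IsLocal f R F β) ∧
    ∀ (Φ : ℂ → ℂ) (β : Pts f R F → Multiset ℂ), IsPhi f R F Φ → IsLocal f R F β →
      (∀ᵐ t : ℝ, 0 < modulus β t ∧
        Tendsto (fun x : ℕ => Real.exp (logSum β x (ept f.m t)).re) atTop (𝓝 (modulus β t)) ∧
        Tendsto (fun ε : ℝ => ‖Φ (ept f.m t + ε)‖) (𝓝[>] 0) (𝓝 (modulus β t))) ∧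
      (∀ U : Set ℂ, Symm f.m U →
        (MerOn f.m Φ U ↔ SqMerOn f.m (modulus β) U) ∧
        (HolOn f.m Φ U ↔ SqHolOn f.m (modulus β) U)) ∧
      (∀ (t₀ : ℝ) (r : ℤ), OrdAt f.m Φ t₀ r ↔ SqOrdAt f.m (modulus β) t₀ (2 * r)) ∧
      ∀ r : ℤ, HasOrder f R F r ↔ SqOrdAt f.m (modulus β) 0 (2 * r) :=
  ⟨⟨_, _, Pool.Agent.Y707.PH.isPhi hf, Pool.Agent.Y707.PH.isLocal_eg hf⟩,
    fun _ _ hΦ hβ => Pool.Agent.R385.FG.main hf hΦ hβ⟩

end Pool.Agent.Results.MP_9faec4_nt.ModulusCriterion
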