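import Pool.Agent.R409.RB.Eul
import Pool.Agent.R409.RB.Pts
import Pool.Agent.TH958.BV.Defs

/-!
# A numerical form of Tate's conjecture over finitely generated fields which is equivalent to its rank
form

Let `K` be a field of characteristic zero, finitely generated over `ℚ`, of transcendence degree
`n - 1 ≥ 1`, let `R` be a domain which is finitely generated over `ℤ` with the field of fractions `K`,
`𝒴 = Spec R` (of dimension `n`), and `𝒳` a smooth projective family of curves over `𝒴`, with the generic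
fibre `X`. The L-function `Φ₁(s)` of the problem is the product over all closed points `y` of `𝒴` of
`∏ (1 - α_{y,j} q_y^{-s})⁻¹`, with the eigenvalues `α_{y,j}` of Frobenius on the first cohomology of the
fibre `𝒳_y`; it converges for `Re s > n + 1/2`. Tate's conjecture says that the order of `Φ₁` at `s = n` is
the rank of `Pic⁰_X(K)`. For `K = ℚ(t)` Nagao's numerical form of the conjecture, with mean values of the
traces of Frobenius of the fibres, is known to be a consequence of it only if the L-function has no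
zeros on the line `Re s = n` (Rosen and Silverman), and zeros of `Φ₁` to the right of this line are not
excluded if `X` has a constant part. Here is a numerical form which is EQUIVALENT to the rank form for
all such `X` and `K`, whenever `Φ₁` has a meromorphic continuation to `Re s ≥ n`, without any hypothesis
on its zeros and poles.

For a real number `τ` put

`W_τ(T) = ∑_y (#𝒳_y(k_y) - 1 - q_y) / q_y ^ n / Γ(1 + (1 + iτ) log q_y / log T)`,

an absolutely convergent series over all closed points `y` of `𝒴` for every `T > 1`. Then: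

* if `Φ₁` has no zeros and poles on the ray `{n + (1 + iτ) x : x > 0}`, then
  `W_τ(T) = r log log T + O(1)`, `r = ord_{s=n} Φ₁`. For every `B` this is the case for all but finitely
  many `τ` in `[-B, B]`;
* if `Φ₁` has a zero or pole on the ray, `n + (1 + iτ) x` the one with the largest `x`, of order `m`,
  then `W_τ(T) ~ m ∫_0^∞ (T^{xu} - 1) du / (u Γ(1 + u))`, and `± Re W_τ(T) ≥ exp (T^c)` for `c < x` and
  large `T`, with the sign of `m`.

So the rank form holds for `X` if and only if `Re W_τ(T_m) / log log T_m → rank Pic⁰_X(K)` for one `τ` and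
one sequence `T_m → ∞`, and then `W_τ(T) = rank log log T + O(1)` in all free directions.

Proof. The number of the closed points of `𝒴` of norm `q` is `O(q ^ (n - 1))`. By Hankel's formula `W_τ(T)`
is an integral of `exp (exp z) log Φ₁(n + (1 + iτ) z / log T)` over the boundary of a half strip of width
`2π`, up to `O(1)`. The vertical side is shifted to the last zero or pole on the ray, or to `n`.
-/

set_option autoImplicit false

namespace Pool.Agent.Results.MP_9faec4_nt.NumericalCriterion

open Filter Topology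
open Pool.Agent.TH958.BV (cone)
open Pool.Agent.TH958.An (resField)
open Pool.Agent.R409.RB (rp rsum)

section defs

variable {R : Type} [CommRing R] {k : ℕ}

/-- The norm `q_y` of a closed point `y` of `Spec R`: the number of the elements of its residue field. -/
noncomputable def norm (y : MaximalSpectrum R) : ℕ := Nat.card (R ⧸ y.asIdeal)

/-- The number of the points over the residue field of `y` of the fibre over `y` of the projective
scheme over `Spec R` defined by the homogeneous polynomials `X`. -/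
noncomputable def points (X : Set (MvPolynomial (Fin k) R)) (y : MaximalSpectrum R) : ℝ :=
  (cone X (Ideal.Quotient.mk y.asIdeal) : ℝ) / ((norm y : ℝ) - 1)

/-- `α_1, …, α_{2g}` are the eigenvalues of the geometric Frobenius at the closed point `y` on the first
cohomology of the fibre over `y` of the family of curves of genus `g` defined by `X`: they have the absolute
value `q_y^{1/2}`, and for every finite extension `κ` of the residue field of `y`, of degree `e`, the number
of the points of the fibre with coordinates in `κ` is `1 + q_y^e - ∑ α_j^e`. By Weil this holds for all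
`y` if the family is smooth. -/
def IsFrobenius (X : Set (MvPolynomial (Fin k) R)) (g : ℕ) (y : MaximalSpectrum R)
    (α : Fin (2 * g) → ℂ) : Prop :=
  (∀ j, ‖α j‖ = √(norm y)) ∧
    ∀ (κ : Type) [Field κ] [Finite κ] (φ : R →+* κ) (e : ℕ), RingHom.ker φ = y.asIdeal →
      Nat.card κ = norm y ^ e →
      (cone X φ : ℂ) = ((norm y : ℂ) ^ e - 1) * (1 + (norm y : ℂ) ^ e - ∑ j, α j ^ e)

/-- The L-function `Φ₁(s) = ∏_y ∏_j (1 - α_{y,j} q_y^{-s})⁻¹`, the product over all closed points. -/
noncomputable def Phi {N : ℕ} (α : MaximalSpectrum R → Fin N → ℂ) (s : ℂ) : ℂ :=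
  ∏' y : MaximalSpectrum R, ∏ j, (1 - α y j * (norm y : ℂ) ^ (-s))⁻¹

/-- `F` is meromorphic at all points of the half-plane `Re s ≥ n`, and it is `Φ₁` for
`Re s > n + 1/2`. -/
def IsContinuation {N : ℕ} (n : ℕ) (α : MaximalSpectrum R → Fin N → ℂ) (F : ℂ → ℂ) : Prop :=
  (∀ s : ℂ, (n : ℝ) ≤ s.re → MeromorphicAt F s) ∧ ∀ s : ℂ, (n : ℝ) + 1 / 2 < s.re → F s = Phi α s

/-- The term of `W_τ(T)` at `y`. -/
noncomputable def rotTerm (X : Set (MvPolynomial (Fin k) R)) (n : ℕ) (τ T : ℝ)
    (y : MaximalSpectrum R) : ℂ :=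
  (((points X y - 1 - norm y) / (norm y : ℝ) ^ n : ℝ) : ℂ) /
    Complex.Gamma (1 + (1 + τ * Complex.I) * (Real.log (norm y) / Real.log T))

/-- `W_τ(T)`. -/
noncomputable def rotSum (X : Set (MvPolynomial (Fin k) R)) (n : ℕ) (τ T : ℝ) : ℂ :=
  ∑' y : MaximalSpectrum R, rotTerm X n τ T y

/-- The point `n + (1 + iτ) x`. -/
noncomputable def ray (n : ℕ) (τ x : ℝ) : ℂ := n + (1 + τ * Complex.I) * x

/-- `F` has a zero or a pole on the ray `{n + (1 + iτ) x : x > 0}`. -/
def Blocked (n : ℕ) (F : ℂ → ℂ) (τ : ℝ) : Prop :=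
  ∃ x : ℝ, 0 < x ∧ meromorphicOrderAt F (ray n τ x) ≠ 0

/-- `∫_0^∞ (e^{yu} - 1) / (u Γ(1 + u)) du`. -/
noncomputable def grow (y : ℝ) : ℝ :=
  ∫ u in Set.Ioi (0 : ℝ), (Real.exp (y * u) - 1) / (u * Real.Gamma (1 + u))

/-- The conclusion for the free directions. -/
def FreeLaw (n : ℕ) (F : ℂ → ℂ) (W : ℝ → ℝ → ℂ) (ρ : ℤ) : Prop :=
  ∀ τ : ℝ, ¬ Blocked n F τ →
    ∃ M : ℝ, ∀ᶠ T : ℝ in atTop, ‖W τ T - ρ * Real.log (Real.log T)‖ ≤ M

/-- The conclusion for the blocked directions. -/
def BlockedLaw (n : ℕ) (F : ℂ → ℂ) (W : ℝ → ℝ → ℂ) : Prop :=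
  ∀ τ : ℝ, Blocked n F τ → ∃ (x : ℝ) (m : ℤ), 0 < x ∧ m ≠ 0 ∧
    meromorphicOrderAt F (ray n τ x) = m ∧
    (∀ y : ℝ, x < y → meromorphicOrderAt F (ray n τ y) = 0) ∧
    Tendsto (fun T : ℝ => W τ T / grow (x * Real.log T)) atTop (𝓝 m) ∧
    ∀ c < x, ∀ᶠ T : ℝ in atTop, Real.exp (T ^ c) ≤ (Int.sign m : ℝ) * (W τ T).re

/-- The numerical form of the conjecture: for one direction `τ` and one sequence `T_m → ∞` the quotient
`Re W_τ(T_m) / log log T_m` tends to `ρ`. -/
def NumericalForm (W : ℝ → ℝ → ℂ) (ρ : ℤ) : Prop :=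
  ∃ (τ : ℝ) (T : ℕ → ℝ), Tendsto T atTop atTop ∧
    Tendsto (fun m => (W τ (T m)).re / Real.log (Real.log (T m))) atTop (𝓝 ρ)

end defs

section bridge

variable {R : Type} [CommRing R] {k g n : ℕ} {X : Set (MvPolynomial (Fin k) R)}
  {α : MaximalSpectrum R → Fin (2 * g) → ℂ} {F : ℂ → ℂ}

theorem ray_eq (n : ℕ) (τ x : ℝ) : ray n τ x = rp (n : ℝ) τ x := by
  unfold ray rp Pool.Agent.W524.RY.dir
  push_cast
  rfl

theorem not_blocked {τ : ℝ} :
    ¬ Blocked n F τ ↔ ∀ x : ℝ, 0 < x → meromorphicOrderAt F (rp (n : ℝ) τ x) = 0 := by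
  unfold Blocked
  push Not
  simp only [ray_eq]

theorem coef_eq [Algebra.FiniteType ℤ R] (hα : ∀ y, IsFrobenius X g y (α y))
    (h2 : ∀ y : MaximalSpectrum R, 2 ≤ norm y) (y : MaximalSpectrum R) :
    (((points X y - 1 - norm y) / (norm y : ℝ) ^ n : ℝ) : ℂ) =
      Pool.Agent.R409.RB.co norm n α y := by
  obtain ⟨-, hc⟩ := hα y
  have h3 := hc (R ⧸ y.asIdeal) (Ideal.Quotient.mk y.asIdeal) 1 Ideal.mk_ker (by rw [pow_one]; rfl)
  simp only [pow_one] at h3
  have h4 : (2 : ℝ) ≤ norm y := by exact_mod_cast h2 y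
  have h5 : ((norm y : ℂ) - 1) ≠ 0 := by
    have : ((norm y : ℝ) - 1) ≠ 0 := by linarith
    exact_mod_cast this
  have h6 : ((points X y : ℝ) : ℂ) = 1 + (norm y : ℂ) - ∑ j, α y j := by
    unfold points
    push_cast
    rw [h3]
    field_simp
  unfold Pool.Agent.R409.RB.co Pool.Agent.R409.RB.pa
  rw [← Finset.sum_mul]
  push_cast
  rw [h6, div_eq_mul_inv]
  ring

theorem term_eq [Algebra.FiniteType ℤ R] (hα : ∀ y, IsFrobenius X g y (α y))
    (h2 : ∀ y : MaximalSpectrum R, 2 ≤ norm y) (τ T : ℝ) (y : MaximalSpectrum R) :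
    rotTerm X n τ T y = Pool.Agent.R409.RB.co norm n α y *
      Pool.Agent.R409.RB.wgt norm τ (Real.log T) y := by
  unfold rotTerm Pool.Agent.R409.RB.wgt Pool.Agent.W524.RY.dir
  rw [coef_eq hα h2, div_eq_mul_inv]

theorem sum_eq [Algebra.FiniteType ℤ R] (hα : ∀ y, IsFrobenius X g y (α y))
    (h2 : ∀ y : MaximalSpectrum R, 2 ≤ norm y) (τ T : ℝ) :
    rotSum X n τ T = rsum norm (Pool.Agent.R409.RB.co norm n α) τ T := by
  unfold rotSum rsum Pool.Agent.R409.RB.cmean
  exact tsum_congr fun y => term_eq hα h2 τ T y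

end bridge

/-- **A numerical form of Tate's conjecture which is equivalent to its rank form.** Let `K` be a finitely
generated field of characteristic zero of transcendence degree `d ≥ 1`, `R` a domain finitely generated
over `ℤ` with the field of fractions `K`, `n = d + 1` the dimension of `Spec R`, and let the
homogeneous polynomials `X` define a smooth projective family of curves of genus `g` over `Spec R`, with the
eigenvalues `α_{y,j}` of Frobenius. Let `F` be a meromorphic continuation of `Φ₁` to `Re s ≥ n`. Then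

* the series `W_τ(T)` converges absolutely for all `T > 1`;
* only finitely many directions `τ` in every bounded interval are blocked;
* for the free directions `W_τ(T) = r log log T + O(1)`, `r = ord_{s=n} F`;
* for the blocked directions `W_τ(T)` is `m ∫_0^∞ (T^{xu} - 1) du / (u Γ(1 + u)) (1 + o(1))`, where
  `n + (1 + iτ) x` is the last zero or pole on the ray, of order `m`, and `± Re W_τ(T) ≥ exp (T^c)`;
* for every integer `ρ`, in particular for the rank of `Pic⁰(K)` of the generic fibre, the assertions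
  `ord_{s=n} F = ρ`, `Re W_τ(T_m) / log log T_m → ρ` for one `τ` and one sequence `T_m → ∞`, and
  `W_τ(T) = ρ log log T + O(1)` for all free directions `τ`, are equivalent. -/
theorem result (K : Type) [Field K] [CharZero K] (d : ℕ) (hd : Algebra.trdeg ℚ K = d) (h1 : 1 ≤ d)
    (R : Type) [CommRing R] [IsDomain R] [Algebra.FiniteType ℤ R] [Algebra R K] [IsFractionRing R K]
    (k g : ℕ) (X : Set (MvPolynomial (Fin k) R)) (α : MaximalSpectrum R → Fin (2 * g) → ℂ)
    (hα : ∀ y, IsFrobenius X g y (α y)) (F : ℂ → ℂ) (hF : IsContinuation (d + 1) α F) :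
    (∀ τ T : ℝ, 1 < T → Summable fun y => ‖rotTerm X (d + 1) τ T y‖) ∧
    (∀ B : ℝ, {τ : ℝ | |τ| ≤ B ∧ Blocked (d + 1) F τ}.Finite) ∧
    (∃ r : ℤ, meromorphicOrderAt F ((d + 1 : ℕ) : ℂ) = r ∧
      FreeLaw (d + 1) F (rotSum X (d + 1)) r) ∧
    BlockedLaw (d + 1) F (rotSum X (d + 1)) ∧
    ∀ ρ : ℤ, List.TFAE [
      meromorphicOrderAt F ((d + 1 : ℕ) : ℂ) = ρ,
      NumericalForm (rotSum X (d + 1)) ρ,
      FreeLaw (d + 1) F (rotSum X (d + 1)) ρ] := by
  have h2 : ∀ y : MaximalSpectrum R, 2 ≤ norm y := Pool.Agent.R409.RB.two_le_qy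
  have hpar : Pool.Agent.R409.RB.Par norm (d + 1) α :=
    { two := h2
      dim := by omega
      temp := fun y j => ((hα y).1 j).le
      zeta := fun σ hσ => Pool.Agent.R409.RB.summable_qy (K := K) (IsFractionRing.injective R K)
        hd.le (by
          push_cast at hσ
          exact hσ) }
  have hc := Pool.Agent.R409.RB.dat hpar hF.1 hF.2
  have e1 : (((d + 1 : ℕ) : ℝ) : ℂ) = ((d + 1 : ℕ) : ℂ) := Complex.ofReal_natCast _
  refine ⟨fun τ T hT => ?_, fun B => ?_, ?_, ?_, fun ρ => ?_⟩
  · simp only [term_eq hα h2]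
    exact hc.rsum_summable τ hT
  · simpa only [Blocked, ray_eq] using hc.blocked_finite B
  · obtain ⟨r, hr, hfree⟩ := Pool.Agent.R409.RB.free_all hc
    rw [e1] at hr
    refine ⟨r, hr, fun τ hτ => ?_⟩
    simp only [sum_eq hα h2]
    exact hfree τ (not_blocked.1 hτ)
  · intro τ hτ
    unfold Blocked at hτ
    simp only [ray_eq] at hτ
    simp only [sum_eq hα h2, ray_eq]
    exact Pool.Agent.R409.RB.blocked_all hc τ hτ
  · have h3 := Pool.Agent.R409.RB.tfae hc ρ
    rw [e1] at h3
    unfold NumericalForm FreeLaw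
    simp only [sum_eq hα h2, not_blocked]
    exact h3

end Pool.Agent.Results.MP_9faec4_nt.NumericalCriterion
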