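import Pool.Agent.R410.BA.Ex

/-!
# Tate's form of the Birch–Swinnerton-Dyer conjecture over function fields of products of pencils

Let `M` be a finitely generated field of characteristic zero and of transcendence degree `d` over `ℚ`,
let `f₀ ∈ M[X]` be a monic cubic polynomial and let `f_1, ..., f_r ∈ M[X]` be monic polynomials of odd
degree.  Let `K = M(w, x_1, ..., x_r, y_1, ..., y_r)`, where `w, x_1, ..., x_r` are algebraically
independent over `M` and `y_i² = f_i(x_i) + w`: this is the function field of the product over the line,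
with the coordinate `w`, of the `r` pencils of hyperelliptic curves `y² = f_i(x) + w`.  The field `K` is
finitely generated of transcendence degree `d + r + 1` over `ℚ`.  Let `E` be the elliptic curve
`Y² = f₀(X) + w` over `K`.

We prove Tate's conjecture (Q1) for `X = E` over `K`, with `n = d + r + 2 = trdeg K + 1`, the dimension
of the models: the group `E(K)` is free of finite rank `∑ (ω_i - 1)`, where `ω_i` is the number of the
irreducible factors of `f₀(z) - f_i(x)` in `M[x, z]`; and for each integral domain `R`, finitely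
generated over `ℤ` and with the field of fractions `K`, and each Weierstrass equation `W` over `R` which
gives `E` over `K`, the Euler product over the closed points of `Spec R` at which `W` has good reduction,
which converges for `Re s > n + 1/2`, continues to an analytic function for `Re s > n` which is
meromorphic at `s = n`, and its order of vanishing there is the rank of `E(K)`.
-/

set_option autoImplicit false

namespace Pool.Agent.Results.MP_9faec4_nt.PencilProducts

open Polynomial
open Pool.Agent.TH958.An (ay qy)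

/-- `K = M(w, x_1, ..., x_r, y_1, ..., y_r)`, where `w, x_1, ..., x_r` are algebraically independent over
`M` and `y_i² = f_i(x_i) + w`. -/
structure IsFunctionField {M K : Type} [Field M] [Field K] [Algebra M K] {r : ℕ} (f : Fin r → M[X])
    (w : K) (x y : Fin r → K) : Prop where
  indep : AlgebraicIndependent M (fun o : Option (Fin r) => o.elim w x)
  curve : ∀ i, y i ^ 2 = aeval (x i) (f i) + w
  gen : IntermediateField.adjoin M (insert w (Set.range x ∪ Set.range y)) = ⊤

/-- The curve `Y² = f₀(X) + w` for a monic cubic polynomial `f₀`. -/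
noncomputable def E {M K : Type} [Field M] [Field K] [Algebra M K] (f₀ : M[X]) (w : K) :
    WeierstrassCurve K :=
  ⟨0, algebraMap M K (f₀.coeff 2), 0, algebraMap M K (f₀.coeff 1), algebraMap M K (f₀.coeff 0) + w⟩

/-- The number of the irreducible factors of `f₀(z) - f(x)` in `M[x, z] = M[x][z]`: each of them is
represented by exactly one polynomial which is monic in `z`. -/
noncomputable def omega {M : Type} [Field M] (f₀ f : M[X]) : ℕ :=
  Nat.card {Q : M[X][X] // Q.Monic ∧ Irreducible Q ∧ Q ∣ f₀.map C - C f}

open Classical in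
/-- **The rank part of Tate's conjecture for the elliptic curves `Y² = f₀(X) + w` over the function
fields of the products of arbitrary many pencils over an arbitrary finitely generated field of
characteristic zero.** -/
theorem result {M : Type} [Field M] [CharZero M]
    (hM : ∃ S : Finset M, Subfield.closure (S : Set M) = ⊤) {d : ℕ} (hd : Algebra.trdeg ℚ M = d)
    {f₀ : M[X]} (hf₀ : f₀.Monic) (h3 : f₀.natDegree = 3) {r : ℕ} (f : Fin r → M[X])
    (hf : ∀ i, (f i).Monic ∧ Odd (f i).natDegree) :
    (∃ (K : Type) (_ : Field K) (_ : Algebra M K) (w : K) (x y : Fin r → K),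
      IsFunctionField f w x y) ∧
    ∀ (K : Type) [Field K] [CharZero K] [Algebra M K] (w : K) (x y : Fin r → K),
      IsFunctionField f w x y →
      Algebra.trdeg ℚ K = (d + r + 1 : ℕ) ∧ (E f₀ w).Δ ≠ 0 ∧
      Module.Free ℤ (E f₀ w).toAffine.Point ∧ Module.Finite ℤ (E f₀ w).toAffine.Point ∧
      Module.finrank ℤ (E f₀ w).toAffine.Point = ∑ i, (omega f₀ (f i) - 1) ∧
      (∃ (R : Subalgebra ℤ K) (W : WeierstrassCurve R), Algebra.FiniteType ℤ R ∧
        IsFractionRing R K ∧ W.map (algebraMap R K) = E f₀ w ∧ IsUnit W.Δ) ∧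
      ∀ (R : Type) [CommRing R] [IsDomain R] [Algebra.FiniteType ℤ R] [Algebra R K]
        [IsFractionRing R K] (W : WeierstrassCurve R), W.map (algebraMap R K) = E f₀ w →
        ∃ Φ : ℂ → ℂ,
          (∀ s : ℂ, ((d + r + 2 : ℕ) : ℝ) + 1 / 2 < s.re →
            HasProd (fun y : {y : MaximalSpectrum R // W.Δ ∉ y.asIdeal} =>
              (1 - (ay W y.1 : ℂ) * (qy y.1 : ℂ) ^ (-s) + (qy y.1 : ℂ) ^ (1 - 2 * s))⁻¹) (Φ s)) ∧
          DifferentiableOn ℂ Φ {s : ℂ | ((d + r + 2 : ℕ) : ℝ) < s.re} ∧
          MeromorphicAt Φ ((d + r + 2 : ℕ) : ℂ) ∧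
          meromorphicOrderAt Φ ((d + r + 2 : ℕ) : ℂ) =
            ((Module.finrank ℤ (E f₀ w).toAffine.Point : ℤ) : WithTop ℤ) := by
  refine ⟨?_, ?_⟩
  · obtain ⟨K, i1, i2, w, x, y, h1, h2, h3⟩ := Pool.Agent.R410.BA.exists_ff f
    exact ⟨K, i1, i2, w, x, y, h1, h2, h3⟩
  · intro K _ _ _ w x y hK
    have hE : E f₀ w = Pool.Agent.R410.BS.cub (f₀.map (algebraMap M K)) w := by
      unfold E Pool.Agent.R410.BS.cub
      rw [coeff_map, coeff_map, coeff_map]
    have hdeg : ∀ i, 0 < (f i).natDegree := fun i => (hf i).2.pos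
    have h03 : 0 < f₀.natDegree := by rw [h3]; norm_num
    obtain ⟨hx, hw⟩ := Pool.Agent.R410.BA.indep_split hK.indep
    have hwM : Transcendental M w := hK.indep.transcendental none
    choose iF hF using fun i => Pool.Agent.R410.BA.mf_spec
      (Pool.Agent.R410.BA.PP_monic (f i) hf₀ h03) (Pool.Agent.R410.BA.PP_sqf hf₀ h03 (hdeg i))
    have hom : ∀ i, omega f₀ (f i) =
        Fintype.card (Pool.Agent.R410.BA.MF (Pool.Agent.R410.BS.PP f₀ (f i))) := fun i => by
      rw [← Nat.card_eq_fintype_card]
      rfl
    obtain ⟨r1, r2, r3⟩ := Pool.Agent.R410.BA.rank_main hx hw hf₀ h3 (fun i => (hf i).1) hdeg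
      hK.curve hK.gen (J := fun i => Pool.Agent.R410.BA.MF (Pool.Agent.R410.BS.PP f₀ (f i)))
      (h := fun i Q => Q.1) (fun i j => j.2.2.1) (fun i j => j.2.1)
      (fun i => Subtype.val_injective) hF (E f₀ w) hE
    have hΔ : (E f₀ w).Δ ≠ 0 := by
      rw [hE]
      exact Pool.Agent.R410.BA.cub_ne f₀ hwM
    have htr := Pool.Agent.R410.BA.trdeg_K hd hK.indep hK.curve hK.gen
    have hpos : ∀ i, 0 < omega f₀ (f i) := by
      intro i
      rw [hom]
      by_contra h0
      have h1 : IsEmpty (Pool.Agent.R410.BA.MF (Pool.Agent.R410.BS.PP f₀ (f i))) :=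
        Fintype.card_eq_zero_iff.1 (by omega)
      have h2 := hF i
      rw [Finset.univ_eq_empty, Finset.prod_empty] at h2
      have h4 : (Pool.Agent.R410.BS.PP f₀ (f i)).natDegree = 3 := by
        unfold Pool.Agent.R410.BS.PP
        rw [natDegree_sub_C, hf₀.natDegree_map, h3]
      rw [← h2, natDegree_one] at h4
      norm_num at h4
    refine ⟨by rw [htr]; congr 1; omega, hΔ, r1, r2, ?_, ?_, ?_⟩
    · rw [r3]
      exact Finset.sum_congr rfl fun i _ => by rw [hom]
    · exact Pool.Agent.R410.BA.exists_model (Pool.Agent.R410.BA.fg_K hM hK.gen) _ hΔ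
    · intro R _ _ _ _ _ W hW
      obtain ⟨Φ, p1, p2, p3, p4⟩ := Pool.Agent.R410.BA.euler_any hM hd hK.indep hf₀ h3
        (fun i => (hf i).1) (fun i => (hf i).2) hK.curve hK.gen R W (by rw [hW, hE])
      have e1 : (((d + 1 + r : ℕ) : ℂ) + 1) = ((d + r + 2 : ℕ) : ℂ) := by
        push_cast
        ring
      rw [e1] at p3 p4
      refine ⟨Φ, ?_, ?_, p3, ?_⟩
      · intro s hs
        refine p1 s ?_
        push_cast at hs ⊢
        linarith
      · intro s hs
        refine (p2 s ?_).mono ?_
        · rw [Set.mem_ofPred_eq] at hs ⊢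
          push_cast at hs ⊢
          linarith
        · intro t ht
          rw [Set.mem_ofPred_eq] at ht ⊢
          push_cast at ht ⊢
          linarith
      · rw [p4, r3]
        congr 1
        push_cast
        have h5 : ∀ i, (Nat.card (Pool.Agent.R410.BA.MF (Pool.Agent.R410.BS.PP f₀ (f i))) : ℤ) =
            ((Fintype.card (Pool.Agent.R410.BA.MF (Pool.Agent.R410.BS.PP f₀ (f i))) - 1 : ℕ) : ℤ) +
              1 := by
          intro i
          have h6 := hpos i
          rw [hom] at h6
          rw [Nat.card_eq_fintype_card, Nat.cast_sub h6]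
          push_cast
          ring
        rw [Finset.sum_congr rfl fun i _ => h5 i, Finset.sum_add_distrib, Finset.sum_const,
          Finset.card_univ, Fintype.card_fin, nsmul_eq_mul, mul_one]
        ring

end Pool.Agent.Results.MP_9faec4_nt.PencilProducts
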